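import Mathlib
import Pool.Agent.H369R2.S6c

/-!
# Representations of an integer by a diagonal binary form with two positive coefficients

The equation `A x ^ 2 + B z ^ 2 = n` has at most `2 d(n) ^ 2` solutions in positive integers,
uniformly in the positive coefficients `A` and `B`.
-/

set_option autoImplicit false

namespace Pool.Agent.J6H52.Pw

/-- divisibility of the mixed products -/
theorem mix_dvd (A d x y : ℕ) (h1 : d ∣ A * x ^ 2) (h2 : d ∣ A * y ^ 2) :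
    d ∣ A * (x * y) := by
  have h3 : d ^ 2 ∣ (A * (x * y)) ^ 2 := by
    have : (A * (x * y)) ^ 2 = (A * x ^ 2) * (A * y ^ 2) := by ring
    rw [this, sq]
    exact mul_dvd_mul h1 h2
  exact (Nat.pow_dvd_pow_iff (by norm_num)).mp h3

/-- the product rule for the mixed products -/
theorem mix_mul (A d x y r v1 v2 v3 v4 : ℕ) (hd : 0 < d) (h1 : A * (x * r) = d * v1)
    (h2 : A * (y * r) = d * v2) (h3 : A * (x * y) = d * v3) (h4 : A * (r * r) = d * v4) :
    v1 * v2 = v3 * v4 := by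
  have h5 : d * d * (v1 * v2) = d * d * (v3 * v4) := by
    calc d * d * (v1 * v2) = (d * v1) * (d * v2) := by ring
      _ = (A * (x * r)) * (A * (y * r)) := by rw [h1, h2]
      _ = (A * (x * y)) * (A * (r * r)) := by ring
      _ = (d * v3) * (d * v4) := by rw [h3, h4]
      _ = _ := by ring
  exact Nat.eq_of_mul_eq_mul_left (Nat.mul_pos hd hd) h5

theorem card_fix (A B d m : ℕ) (hA : 0 < A) (hB : 0 < B) (hd : 0 < d) (hm : 0 < m)
    (S : Finset (ℕ × ℕ))
    (hS : ∀ s ∈ S, 0 < s.1 ∧ 0 < s.2 ∧ A * s.1 ^ 2 + B * s.2 ^ 2 = d * m ∧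
      Nat.gcd (A * s.1 ^ 2) (B * s.2 ^ 2) = d) :
    S.card ≤ 2 * m.divisors.card := by
  classical
  have : NeZero m := ⟨hm.ne'⟩
  rcases S.eq_empty_or_nonempty with h0 | ⟨s1, hs1⟩
  · simp [h0]
  have hV : ∀ s ∈ S, ∀ t ∈ S, ∃ v : ℕ, A * (s.1 * t.1) = d * v := by
    intro s hs t ht
    have h1 : d ∣ A * s.1 ^ 2 := by
      have := Nat.gcd_dvd_left (A * s.1 ^ 2) (B * s.2 ^ 2)
      rwa [(hS s hs).2.2.2] at this
    have h2 : d ∣ A * t.1 ^ 2 := by
      have := Nat.gcd_dvd_left (A * t.1 ^ 2) (B * t.2 ^ 2)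
      rwa [(hS t ht).2.2.2] at this
    exact mix_dvd A d _ _ h1 h2
  have hW : ∀ s ∈ S, ∀ t ∈ S, ∃ v : ℕ, B * (s.2 * t.2) = d * v := by
    intro s hs t ht
    have h1 : d ∣ B * s.2 ^ 2 := by
      have := Nat.gcd_dvd_right (A * s.1 ^ 2) (B * s.2 ^ 2)
      rwa [(hS s hs).2.2.2] at this
    have h2 : d ∣ B * t.2 ^ 2 := by
      have := Nat.gcd_dvd_right (A * t.1 ^ 2) (B * t.2 ^ 2)
      rwa [(hS t ht).2.2.2] at this
    exact mix_dvd B d _ _ h1 h2
  choose! V hV using hV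
  choose! W hW using hW
  have hVV : ∀ s ∈ S, ∀ t ∈ S, ∀ r ∈ S, V s r * V t r = V s t * V r r :=
    fun s hs t ht r hr => mix_mul A d s.1 t.1 r.1 _ _ _ _ hd (hV s hs r hr) (hV t ht r hr)
      (hV s hs t ht) (hV r hr r hr)
  have hWW : ∀ s ∈ S, ∀ t ∈ S, ∀ r ∈ S, W s r * W t r = W s t * W r r :=
    fun s hs t ht r hr => mix_mul B d s.2 t.2 r.2 _ _ _ _ hd (hW s hs r hr) (hW t ht r hr)
      (hW s hs t ht) (hW r hr r hr)
  have hsum : ∀ s ∈ S, V s s + W s s = m := by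
    intro s hs
    have h1 : d * (V s s + W s s) = d * m := by
      rw [mul_add, ← hV s hs s hs, ← hW s hs s hs, ← (hS s hs).2.2.1]
      ring
    exact Nat.eq_of_mul_eq_mul_left hd h1
  have hcop : ∀ s ∈ S, Nat.Coprime (V s s) (W s s) := by
    intro s hs
    have h1 : d * Nat.gcd (V s s) (W s s) = d * 1 := by
      rw [← Nat.gcd_mul_left, ← hV s hs s hs, ← hW s hs s hs, mul_one, ← sq, ← sq]
      exact (hS s hs).2.2.2
    exact Nat.eq_of_mul_eq_mul_left hd h1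
  have hVm : ∀ s ∈ S, Nat.Coprime (V s s) m := by
    intro s hs
    rw [← hsum s hs, Nat.coprime_self_add_right]
    exact hcop s hs
  have hWm : ∀ s ∈ S, Nat.Coprime (W s s) m := by
    intro s hs
    rw [← hsum s hs, Nat.coprime_add_self_right]
    exact (hcop s hs).symm
  have hVtm : ∀ s ∈ S, ∀ t ∈ S, Nat.Coprime (V s t) m := by
    intro s hs t ht
    have h1 : V s t ∣ V s s * V t t := ⟨V s t, (hVV s hs s hs t ht).symm⟩
    exact Nat.Coprime.coprime_dvd_left h1 (Nat.Coprime.mul_left (hVm s hs) (hVm t ht))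
  have hWtm : ∀ s ∈ S, ∀ t ∈ S, Nat.Coprime (W s t) m := by
    intro s hs t ht
    have h1 : W s t ∣ W s s * W t t := ⟨W s t, (hWW s hs s hs t ht).symm⟩
    exact Nat.Coprime.coprime_dvd_left h1 (Nat.Coprime.mul_left (hWm s hs) (hWm t ht))
  have hneg : ∀ s ∈ S, ((V s s : ℕ) : ZMod m) = -((W s s : ℕ) : ZMod m) := by
    intro s hs
    have h1 : ((V s s + W s s : ℕ) : ZMod m) = ((m : ℕ) : ZMod m) := by rw [hsum s hs]
    rw [Nat.cast_add, ZMod.natCast_self] at h1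
    exact eq_neg_of_add_eq_zero_left h1
  have hsq : ∀ s ∈ S, ((V s s1 : ℕ) : ZMod m) ^ 2 = ((W s s1 : ℕ) : ZMod m) ^ 2 := by
    intro s hs
    have h1 : ((V s s1 : ℕ) : ZMod m) * ((V s s1 : ℕ) : ZMod m) =
        ((V s s : ℕ) : ZMod m) * ((V s1 s1 : ℕ) : ZMod m) := by
      rw [← Nat.cast_mul, hVV s hs s hs s1 hs1, Nat.cast_mul]
    have h2 : ((W s s1 : ℕ) : ZMod m) * ((W s s1 : ℕ) : ZMod m) =
        ((W s s : ℕ) : ZMod m) * ((W s1 s1 : ℕ) : ZMod m) := by
      rw [← Nat.cast_mul, hWW s hs s hs s1 hs1, Nat.cast_mul]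
    rw [sq, sq, h1, h2, hneg s hs, hneg s1 hs1]
    ring
  let uV : {s // s ∈ S} → (ZMod m)ˣ := fun s => ZMod.unitOfCoprime (V s.1 s1) (hVtm s.1 s.2 s1 hs1)
  let uW : {s // s ∈ S} → (ZMod m)ˣ := fun s => ZMod.unitOfCoprime (W s.1 s1) (hWtm s.1 s.2 s1 hs1)
  have huV : ∀ s, ((uV s : (ZMod m)ˣ) : ZMod m) = ((V s.1 s1 : ℕ) : ZMod m) := fun s =>
    ZMod.coe_unitOfCoprime _ _
  have huW : ∀ s, ((uW s : (ZMod m)ˣ) : ZMod m) = ((W s.1 s1 : ℕ) : ZMod m) := fun s =>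
    ZMod.coe_unitOfCoprime _ _
  have husq : ∀ s, (uV s) ^ 2 = (uW s) ^ 2 := by
    intro s
    apply Units.ext
    rw [Units.val_pow_eq_pow_val, Units.val_pow_eq_pow_val, huV, huW]
    exact hsq s.1 s.2
  let F : {s // s ∈ S} → (powMonoidHom 2 : (ZMod m)ˣ →* (ZMod m)ˣ).ker := fun s =>
    ⟨uV s * (uW s)⁻¹, by
      rw [MonoidHom.mem_ker, powMonoidHom_apply, mul_pow, husq s, ← mul_pow, mul_inv_cancel, one_pow]⟩
  have hF : Function.Injective F := by
    intro s t hst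
    have h1 : uV s * (uW s)⁻¹ = uV t * (uW t)⁻¹ := congrArg Subtype.val hst
    have h2 : uV s * uV t = uW s * uW t := by
      have h3 : uV s = uV t * (uW t)⁻¹ * uW s := by rw [← h1]; simp
      have h4 : uV t * uV t = uW t * uW t := by rw [← sq, ← sq]; exact husq t
      calc uV s * uV t = (uV t * uV t) * (uW t)⁻¹ * uW s := by
            rw [h3]
            simp only [mul_comm, mul_assoc, mul_left_comm]
        _ = uW t * uW t * (uW t)⁻¹ * uW s := by rw [h4]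
        _ = uW s * uW t := by rw [mul_inv_cancel_right, mul_comm]
    have h5 : ((V s.1 s1 : ℕ) : ZMod m) * ((V t.1 s1 : ℕ) : ZMod m) =
        ((W s.1 s1 : ℕ) : ZMod m) * ((W t.1 s1 : ℕ) : ZMod m) := by
      have := congrArg (fun u : (ZMod m)ˣ => (u : ZMod m)) h2
      simpa only [Units.val_mul, huV, huW] using this
    rw [← Nat.cast_mul, ← Nat.cast_mul, hVV s.1 s.2 t.1 t.2 s1 hs1, hWW s.1 s.2 t.1 t.2 s1 hs1,
      Nat.cast_mul, Nat.cast_mul, hneg s1 hs1] at h5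
    have h6 : (((W s1 s1) * (V s.1 t.1 + W s.1 t.1) : ℕ) : ZMod m) = 0 := by
      push_cast
      linear_combination -h5
    have h7 : m ∣ (W s1 s1) * (V s.1 t.1 + W s.1 t.1) := (ZMod.natCast_eq_zero_iff _ _).mp h6
    have h8 : m ∣ V s.1 t.1 + W s.1 t.1 := (hWm s1 hs1).symm.dvd_of_dvd_mul_left h7
    have a1 := hsum s.1 s.2
    have a2 := hsum t.1 t.2
    have a3 : V s.1 t.1 * V s.1 t.1 = V s.1 s.1 * V t.1 t.1 := hVV s.1 s.2 s.1 s.2 t.1 t.2
    have a4 : W s.1 t.1 * W s.1 t.1 = W s.1 s.1 * W t.1 t.1 := hWW s.1 s.2 s.1 s.2 t.1 t.2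
    have b1 : 2 * V s.1 t.1 ≤ V s.1 s.1 + V t.1 t.1 := by
      by_contra hc
      rw [not_le] at hc
      have hc' : (V s.1 s.1 + V t.1 t.1) * (V s.1 s.1 + V t.1 t.1) <
          2 * V s.1 t.1 * (2 * V s.1 t.1) := Nat.mul_self_lt_mul_self hc
      zify at hc' a3
      nlinarith [sq_nonneg ((V s.1 s.1 : ℤ) - V t.1 t.1)]
    have b2 : 2 * W s.1 t.1 ≤ W s.1 s.1 + W t.1 t.1 := by
      by_contra hc
      rw [not_le] at hc
      have hc' : (W s.1 s.1 + W t.1 t.1) * (W s.1 s.1 + W t.1 t.1) <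
          2 * W s.1 t.1 * (2 * W s.1 t.1) := Nat.mul_self_lt_mul_self hc
      zify at hc' a4
      nlinarith [sq_nonneg ((W s.1 s.1 : ℤ) - W t.1 t.1)]
    have b3 : 0 < V s.1 t.1 := by
      rcases Nat.eq_zero_or_pos (V s.1 t.1) with h | h
      · exfalso
        have := hV s.1 s.2 t.1 t.2
        rw [h, mul_zero] at this
        have h9 : 0 < A * (s.1.1 * t.1.1) :=
          Nat.mul_pos hA (Nat.mul_pos (hS s.1 s.2).1 (hS t.1 t.2).1)
        omega
      · exact h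
    have b4 : m ≤ V s.1 t.1 + W s.1 t.1 := Nat.le_of_dvd (by omega) h8
    have b5 : 2 * V s.1 t.1 = V s.1 s.1 + V t.1 t.1 := by omega
    have b6 : V s.1 s.1 = V t.1 t.1 := by
      zify at b5 a3 ⊢
      have : ((V s.1 s.1 : ℤ) - V t.1 t.1) ^ 2 = 0 := by nlinarith
      have := pow_eq_zero_iff (two_ne_zero) |>.mp this
      linarith
    have c1 : A * (s.1.1 * s.1.1) = A * (t.1.1 * t.1.1) := by
      rw [hV s.1 s.2 s.1 s.2, hV t.1 t.2 t.1 t.2, b6]
    have c2 : s.1.1 = t.1.1 := Nat.mul_self_inj.mp (Nat.eq_of_mul_eq_mul_left hA c1)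
    have c3 : B * (s.1.2 * s.1.2) = B * (t.1.2 * t.1.2) := by
      rw [hW s.1 s.2 s.1 s.2, hW t.1 t.2 t.1 t.2]
      congr 1
      omega
    have c4 : s.1.2 = t.1.2 := Nat.mul_self_inj.mp (Nat.eq_of_mul_eq_mul_left hB c3)
    exact Subtype.ext (Prod.ext c2 c4)
  have h1 := Nat.card_le_card_of_injective F hF
  have h2 : Nat.card {s // s ∈ S} = S.card := by
    rw [Nat.card_eq_fintype_card, Fintype.card_coe]
  rw [h2] at h1
  exact h1.trans (Pool.Agent.H369R2.S6c.card_ker_le m)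

/-- The equation `A x ^ 2 + B z ^ 2 = n` has at most `2 d(n) ^ 2` solutions in positive integers. -/
theorem card_conic (A B n : ℕ) (hA : 0 < A) (hB : 0 < B) (hn : 0 < n) (S : Finset (ℕ × ℕ))
    (hS : ∀ s ∈ S, 0 < s.1 ∧ 0 < s.2 ∧ A * s.1 ^ 2 + B * s.2 ^ 2 = n) :
    S.card ≤ 2 * n.divisors.card ^ 2 := by
  classical
  have h1 : S.card = ∑ d ∈ n.divisors,
      (S.filter (fun s => Nat.gcd (A * s.1 ^ 2) (B * s.2 ^ 2) = d)).card := by
    apply Finset.card_eq_sum_card_fiberwise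
    intro s hs
    have hs' := hS s hs
    simp only [Finset.mem_coe, Nat.mem_divisors]
    refine ⟨?_, hn.ne'⟩
    rw [← hs'.2.2]
    exact dvd_add (Nat.gcd_dvd_left _ _) (Nat.gcd_dvd_right _ _)
  rw [h1]
  calc _ ≤ ∑ d ∈ n.divisors, 2 * n.divisors.card := by
        apply Finset.sum_le_sum
        intro d hd
        obtain ⟨⟨m, hm⟩, _⟩ := Nat.mem_divisors.mp hd
        have hd0 : 0 < d := Nat.pos_of_mem_divisors hd
        have hm0 : 0 < m := by
          rcases Nat.eq_zero_or_pos m with h | h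
          · subst h; omega
          · exact h
        refine (card_fix A B d m hA hB hd0 hm0 _ ?_).trans ?_
        · intro s hs
          rw [Finset.mem_filter] at hs
          have := hS s hs.1
          exact ⟨this.1, this.2.1, by rw [this.2.2, hm], hs.2⟩
        · have : m.divisors ⊆ n.divisors := Nat.divisors_subset_of_dvd hn.ne' ⟨d, by rw [hm]; ring⟩
          have := Finset.card_le_card this
          omega
    _ = _ := by rw [Finset.sum_const, smul_eq_mul]; ring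

end Pool.Agent.J6H52.Pw
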