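import Pool.Agent.J6H52.Pw.Pell
import Pool.Prelude.Def_F_6a22bfac

/-!
# Two consecutive powerful numbers followed by a multiple of a large square
-/

set_option autoImplicit false

namespace Pool.Agent.J6H52.Pw

open N8b628fb0

/-- a divisor whose primes divide `M` at least twice is at most the 2-full part of `M` -/
theorem le_B (D M : ℕ) (hM : M ≠ 0) (hD : D ∣ M) (hp : ∀ p : ℕ, p.Prime → p ∣ D → p ^ 2 ∣ M) :
    D ≤ B 2 M := by
  have hD0 : D ≠ 0 := fun h => hM (by rw [h] at hD; exact Nat.eq_zero_of_zero_dvd hD)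
  have h1 : D = ∏ p ∈ D.primeFactors, p ^ D.factorization p := by
    conv_lhs => rw [← Nat.prod_factorization_pow_eq_self hD0]
    rfl
  have h2 : ∏ p ∈ D.primeFactors, p ^ D.factorization p ≤
      ∏ p ∈ D.primeFactors, p ^ M.factorization p := by
    apply Finset.prod_le_prod'
    intro p hpD
    have hpp := Nat.prime_of_mem_primeFactors hpD
    exact Nat.pow_le_pow_right hpp.pos ((Nat.factorization_le_iff_dvd hD0 hM).mpr hD p)
  have h3 : ∏ p ∈ D.primeFactors, p ^ M.factorization p ≤ B 2 M := by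
    unfold B
    apply Finset.prod_le_prod_of_subset_of_one_le'
    · intro p hpD
      have hpp := Nat.prime_of_mem_primeFactors hpD
      have h4 := hp p hpp (Nat.dvd_of_mem_primeFactors hpD)
      have h5 : 2 ≤ M.factorization p := (hpp.pow_dvd_iff_le_factorization hM).mp h4
      rw [Finset.mem_filter]
      refine ⟨?_, h5⟩
      rw [Finsupp.mem_support_iff]
      omega
    · intro p hpM _
      rw [Finset.mem_filter, Nat.support_factorization] at hpM
      exact Nat.one_le_pow _ _ (Nat.prime_of_mem_primeFactors hpM.1).pos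
  calc D = _ := h1
    _ ≤ _ := h2
    _ ≤ _ := h3

theorem one_le_B (M : ℕ) : 1 ≤ B 2 M := by
  unfold B
  apply Finset.one_le_prod'
  intro p hpM
  rw [Finset.mem_filter, Nat.support_factorization] at hpM
  exact Nat.one_le_pow _ _ (Nat.prime_of_mem_primeFactors hpM.1).pos

/-- the construction -/
theorem arith (b : ℕ) : ∃ n A t : ℕ, 0 < A ∧
    (∀ p : ℕ, p.Prime → p ∣ n → p ^ 2 ∣ n) ∧
    (∀ p : ℕ, p.Prime → p ∣ n + 1 → p ^ 2 ∣ n + 1) ∧ A ^ 2 ∣ n + 2 ∧
    t = (2 * b + 3) * A ∧ 2 ^ (2 * b + 2) ≤ A ∧ 2 * 4 ^ t ≤ n ∧ n ≤ 2 * 9 ^ (t + 1) := by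
  obtain ⟨A, hA⟩ : ∃ A : ℕ, P (2 * b + 3) = (A : ℤ) := ⟨(P (2 * b + 3)).toNat, by
    rw [Int.toNat_of_nonneg (pos _).2]⟩
  have hA1 : (2 : ℤ) ^ (2 * b + 2) ≤ A := by
    have := (P_ge (2 * b + 2)).1
    rw [← hA]
    exact this
  have hA1' : 2 ^ (2 * b + 2) ≤ A := by exact_mod_cast hA1
  have hA0 : 0 < A := lt_of_lt_of_le (by positivity) hA1'
  set t := (2 * b + 3) * A with ht
  have hsq : (A : ℤ) ^ 2 ∣ P t := by
    have := sq_dvd (2 * b + 3) (by omega)
    rw [hA, Int.toNat_natCast] at this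
    exact this
  have hAodd : A % 2 = 1 := by
    have := (P_mod_two (b + 1)).2.1
    rw [show 2 * (b + 1) + 1 = 2 * b + 3 by ring, hA] at this
    omega
  have htodd : t % 2 = 1 := by
    rw [ht, Nat.mul_mod, hAodd]
    omega
  obtain ⟨j, hj⟩ : ∃ j, t = 2 * j + 1 := ⟨t / 2, by omega⟩
  obtain ⟨Q, hQ⟩ : ∃ Q : ℕ, P (2 * j + 2) = (Q : ℤ) := ⟨(P (2 * j + 2)).toNat, by
    rw [Int.toNat_of_nonneg (pos _).2]⟩
  obtain ⟨h, hh⟩ : ∃ h : ℕ, H (2 * j + 2) = (h : ℤ) := ⟨(H (2 * j + 2)).toNat, by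
    rw [Int.toNat_of_nonneg (pos _).1.le]⟩
  have hn : h ^ 2 = 2 * Q ^ 2 + 1 := by
    have := norm_even (j + 1)
    rw [show 2 * (j + 1) = 2 * j + 2 by ring, hh, hQ] at this
    exact_mod_cast this
  have hQeven : Q % 2 = 0 := by
    have := (P_mod_two (j + 1)).1
    rw [show 2 * (j + 1) = 2 * j + 2 by ring, hQ] at this
    omega
  refine ⟨2 * Q ^ 2, A, t, hA0, ?_, ?_, ?_, rfl, hA1', ?_, ?_⟩
  · intro p hp hpn
    rcases (Nat.Prime.dvd_mul hp).mp hpn with h2 | h2
    · have : p = 2 := (Nat.prime_dvd_prime_iff_eq hp Nat.prime_two).mp h2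
      subst this
      obtain ⟨w, hw⟩ := Nat.dvd_of_mod_eq_zero hQeven
      exact ⟨2 * w ^ 2, by rw [hw]; ring⟩
    · have := hp.dvd_of_dvd_pow h2
      exact Dvd.dvd.mul_left (pow_dvd_pow_of_dvd this 2) 2
  · intro p hp hpn
    rw [← hn] at hpn ⊢
    exact pow_dvd_pow_of_dvd (hp.dvd_of_dvd_pow hpn) 2
  · have h1 := cassini j
    rw [hh] at h1
    have h2 : (A : ℤ) ^ 2 ∣ (h : ℤ) ^ 2 + 1 := by
      rw [h1]
      rw [← hj]
      exact Dvd.dvd.mul_left hsq _
    have h3 : A ^ 2 ∣ h ^ 2 + 1 := by exact_mod_cast h2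
    rw [hn] at h3
    exact h3
  · have h1 := (P_ge (2 * j + 1)).1
    rw [show 2 * j + 1 + 1 = 2 * j + 2 by ring, hQ, ← hj] at h1
    have h2 : 2 ^ t ≤ Q := by exact_mod_cast h1
    have h3 : (2 ^ t) ^ 2 ≤ Q ^ 2 := Nat.pow_le_pow_left h2 2
    have h4 : (2 ^ t) ^ 2 = 4 ^ t := by
      rw [← pow_mul, mul_comm, pow_mul]
      norm_num
    omega
  · have h1 := (P_le (2 * j + 2)).1
    rw [hQ, show 2 * j + 2 = t + 1 by omega] at h1
    have h2 : Q ≤ 3 ^ (t + 1) := by exact_mod_cast h1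
    have h3 : Q ^ 2 ≤ (3 ^ (t + 1)) ^ 2 := Nat.pow_le_pow_left h2 2
    have h4 : (3 ^ (t + 1)) ^ 2 = 9 ^ (t + 1) := by
      rw [← pow_mul, mul_comm, pow_mul]
      norm_num
    omega

/-- the construction with the size of the square in terms of `n` -/
theorem core (b : ℕ) : ∃ n A : ℕ, b ≤ n ∧ 0 < A ∧
    (∀ p : ℕ, p.Prime → p ∣ n → p ^ 2 ∣ n) ∧
    (∀ p : ℕ, p.Prime → p ∣ n + 1 → p ^ 2 ∣ n + 1) ∧ A ^ 2 ∣ n + 2 ∧
    0 < Real.log (Real.log n) ∧ Real.log n / Real.log (Real.log n) ≤ 10 * A := by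
  obtain ⟨n, A, t, hA0, h1, h2, h3, ht, hA, hn1, hn2⟩ := arith b
  have hb : b < 2 ^ b := Nat.lt_two_pow_self
  have ht1 : 2 * b + 3 ≤ t := by rw [ht]; exact Nat.le_mul_of_pos_right _ hA0
  have htt : t < 4 ^ t := Nat.lt_pow_self (by norm_num)
  have hlog2 : (0.6931471803 : ℝ) < Real.log 2 := Real.log_two_gt_d9
  have hlog2' : Real.log 2 < 0.6931471808 := Real.log_two_lt_d9
  have hlog4 : Real.log 4 = 2 * Real.log 2 := by
    rw [show (4 : ℝ) = 2 ^ 2 by norm_num, Real.log_pow]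
    norm_num
  have hlog9 : Real.log 9 ≤ 2.6 := by
    have : Real.log 9 ≤ Real.log (2 ^ 3 * (9 / 8)) := by norm_num
    rw [Real.log_mul (by norm_num) (by norm_num), Real.log_pow] at this
    have h9 : Real.log (9 / 8) ≤ 9 / 8 - 1 := Real.log_le_sub_one_of_pos (by norm_num)
    push_cast at this
    linarith
  have hAr : (0 : ℝ) < A := by exact_mod_cast hA0
  have htr : (t : ℝ) = (2 * b + 3) * A := by rw [ht]; push_cast; ring
  have hbr : (0 : ℝ) ≤ b := Nat.cast_nonneg b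
  have htpos : (3 : ℝ) ≤ t := by
    have : 3 ≤ t := by omega
    exact_mod_cast this
  -- lower bound of `log n`
  have g1 : (t : ℝ) ≤ Real.log n := by
    have : Real.log (2 * 4 ^ t) ≤ Real.log n := by
      apply Real.log_le_log (by positivity)
      exact_mod_cast hn1
    rw [Real.log_mul (by norm_num) (by positivity), Real.log_pow, hlog4] at this
    nlinarith
  -- upper bound of `log n`
  have g2 : Real.log n ≤ 4.5 * t := by
    have hn0 : (0 : ℝ) < n := by
      have : 0 < n := by omega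
      exact_mod_cast this
    have : Real.log n ≤ Real.log (2 * 9 ^ (t + 1)) := by
      apply Real.log_le_log hn0
      exact_mod_cast hn2
    rw [Real.log_mul (by norm_num) (by positivity), Real.log_pow] at this
    push_cast at this
    nlinarith
  -- lower bound of `log log n`
  have g3 : (2 * (b : ℝ) + 3) * 0.46 ≤ Real.log (Real.log n) := by
    have h5 : ((2 : ℝ) ^ (2 * b + 2)) ≤ Real.log n := by
      have h6 : (2 : ℝ) ^ (2 * b + 2) ≤ A := by exact_mod_cast hA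
      have h7 : (A : ℝ) ≤ t := by
        rw [htr]
        nlinarith
      linarith
    have h6 : Real.log ((2 : ℝ) ^ (2 * b + 2)) ≤ Real.log (Real.log n) :=
      Real.log_le_log (by positivity) h5
    rw [Real.log_pow] at h6
    push_cast at h6
    nlinarith
  have g4 : 0 < Real.log (Real.log n) := lt_of_lt_of_le (by positivity) g3
  refine ⟨n, A, by omega, hA0, h1, h2, h3, g4, ?_⟩
  rw [div_le_iff₀ g4]
  calc Real.log n ≤ 4.5 * t := g2
    _ = 4.5 * (2 * b + 3) * A := by rw [htr]; ring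
    _ ≤ 10 * A * ((2 * (b : ℝ) + 3) * 0.46) := by nlinarith
    _ ≤ 10 * A * Real.log (Real.log n) := by gcongr

end Pool.Agent.J6H52.Pw
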