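import Pool.Agent.J6H52.Pw.Core

/-!
# Squares of linear size dividing Pell numbers

There are arbitrarily large odd `S` with `S ^ 2 ∣ P (3 S)` (an observation of helper42). It gives
powerful `n`, `n + 1` such that `n + 2` is divisible by `A ^ 2` with `log n ≤ 6 A`.
-/

set_option autoImplicit false

namespace Pool.Agent.J6H52.Pw

/-- one step: from `S` to `P (3 S) / S` -/
theorem step (S : ℕ) (hS : S % 2 = 1) (h : (S : ℤ) ^ 2 ∣ P (3 * S)) :
    ∃ S' : ℕ, S < S' ∧ S' % 2 = 1 ∧ (S' : ℤ) ^ 2 ∣ P (3 * S') := by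
  have hS0 : 0 < S := by omega
  obtain ⟨c, hc⟩ := h
  have hPpos : 0 < P (3 * S) := by
    obtain ⟨m, hm⟩ : ∃ m, 3 * S = m + 1 := ⟨3 * S - 1, by omega⟩
    rw [hm]
    exact P_pos m
  have hSr : (0 : ℤ) < S := by exact_mod_cast hS0
  have hc0 : 0 < c := by
    by_contra hneg
    rw [not_lt] at hneg
    have : (S : ℤ) ^ 2 * c ≤ 0 := mul_nonpos_of_nonneg_of_nonpos (by positivity) hneg
    linarith
  obtain ⟨C, rfl⟩ : ∃ C : ℕ, c = (C : ℤ) := ⟨c.toNat, by rw [Int.toNat_of_nonneg hc0.le]⟩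
  have hC0 : 0 < C := by exact_mod_cast hc0
  refine ⟨S * C, ?_, ?_, ?_⟩
  · -- growth
    have h1 : (2 : ℤ) ^ (3 * S - 1) ≤ P (3 * S) := by
      have := (P_ge (3 * S - 1)).1
      rwa [show 3 * S - 1 + 1 = 3 * S by omega] at this
    have h2 : ((S : ℤ) + 1) * (S + 1) ≤ 2 ^ (3 * S - 1) := by
      have h3 : S + 1 ≤ 2 ^ S := Nat.lt_two_pow_self
      have h4 : (S + 1) * (S + 1) ≤ 2 ^ S * 2 ^ S := Nat.mul_le_mul h3 h3
      have h5 : 2 ^ S * 2 ^ S ≤ 2 ^ (3 * S - 1) := by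
        rw [← pow_add]
        exact Nat.pow_le_pow_right (by norm_num) (by omega)
      exact_mod_cast h4.trans h5
    have h6 : (S : ℤ) * (S + 1) < (S : ℤ) * (S * C) := by
      have : (S : ℤ) ^ 2 * C = S * (S * C) := by ring
      rw [← this, ← hc]
      nlinarith
    have h7 : (S : ℤ) + 1 < S * C := lt_of_mul_lt_mul_left h6 hSr.le
    have h8 : (S : ℤ) < ((S * C : ℕ) : ℤ) := by push_cast; linarith
    exact_mod_cast h8
  · -- parity
    have h1 : P (3 * S) % 2 = 1 := by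
      obtain ⟨m, hm⟩ : ∃ m, 3 * S = 2 * m + 1 := ⟨3 * S / 2, by omega⟩
      rw [hm]
      exact (P_mod_two m).2.1
    have h2 : ((S * (S * C) : ℕ) : ℤ) % 2 = 1 := by
      rw [← h1, hc]
      congr 1
      push_cast
      ring
    have h3 : (S * (S * C)) % 2 = 1 := by exact_mod_cast h2
    rw [Nat.mul_mod] at h3
    rcases Nat.mod_two_eq_zero_or_one (S * C) with h4 | h4
    · rw [h4] at h3
      simp at h3
    · exact h4
  · -- divisibility
    obtain ⟨j, hj⟩ : ∃ j, C = j + 1 := ⟨C - 1, by omega⟩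
    obtain ⟨u, hu⟩ := (pow_mod (3 * S) j).2.1
    have h1 : ((j : ℤ) + 1) = C := by rw [hj]; push_cast; ring
    have h2 : 3 * (S * C) = 3 * S * (j + 1) := by rw [hj]; ring
    have h3 : P (3 * (S * C)) = C * H (3 * S) ^ j * P (3 * S) + P (3 * S) ^ 2 * u := by
      rw [h2, ← h1]
      linarith
    rw [h3, hc]
    exact ⟨H (3 * S) ^ j + (S : ℤ) ^ 2 * u, by push_cast; ring⟩

theorem exists_large (N : ℕ) : ∃ S : ℕ, N < S ∧ S % 2 = 1 ∧ (S : ℤ) ^ 2 ∣ P (3 * S) := by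
  induction N with
  | zero => exact ⟨1, by norm_num, by norm_num, by simp⟩
  | succ N ih =>
    obtain ⟨S, h1, h2, h3⟩ := ih
    obtain ⟨S', h4, h5, h6⟩ := step S h2 h3
    exact ⟨S', by omega, h5, h6⟩

/-- `2 ^ n P (n + 1) ≤ 5 ^ n` -/
theorem P_le' (n : ℕ) : (2 : ℤ) ^ n * P (n + 1) ≤ 5 ^ n := by
  have key : ∀ n : ℕ, 2 * H (n + 1) ≤ 3 * P (n + 1) := by
    intro n
    rw [H_succ, P_succ]
    have := (P_ge n).2.2
    linarith
  induction n with
  | zero => simp [P_succ, H_zero, P_zero]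
  | succ n ih =>
    have h1 := key n
    have h2 : P (n + 1 + 1) = H (n + 1) + P (n + 1) := P_succ _
    rw [pow_succ, pow_succ, h2]
    have h3 : (0 : ℤ) < 2 ^ n := by positivity
    nlinarith

/-- the improved construction: `log n ≤ 6 A` -/
theorem core2 (N : ℕ) : ∃ n A : ℕ, N ≤ n ∧ 1 ≤ n ∧ N ≤ A ∧
    (∀ p : ℕ, p.Prime → p ∣ n → p ^ 2 ∣ n) ∧
    (∀ p : ℕ, p.Prime → p ∣ n + 1 → p ^ 2 ∣ n + 1) ∧ A ^ 2 ∣ n + 2 ∧
    0 < Real.log n ∧ Real.log n ≤ 6 * A := by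
  obtain ⟨A, hNA, hAodd, hsq⟩ := exists_large (N + 3)
  obtain ⟨t, ht⟩ : ∃ t, t = 3 * A := ⟨_, rfl⟩
  rw [← ht] at hsq
  obtain ⟨j, hj⟩ : ∃ j, t = 2 * j + 1 := ⟨t / 2, by omega⟩
  obtain ⟨Q, hQ⟩ : ∃ Q : ℕ, P (2 * j + 2) = (Q : ℤ) := ⟨(P (2 * j + 2)).toNat, by
    rw [Int.toNat_of_nonneg (pos _).2]⟩
  obtain ⟨h, hh⟩ : ∃ h : ℕ, H (2 * j + 2) = (h : ℤ) := ⟨(H (2 * j + 2)).toNat, by
    rw [Int.toNat_of_nonneg (pos _).1.le]⟩
  have hn : h ^ 2 = 2 * Q ^ 2 + 1 := by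
    have := norm_even (j + 1)
    rw [show 2 * (j + 1) = 2 * j + 2 by ring, hh, hQ] at this
    exact_mod_cast this
  have hQeven : Q % 2 = 0 := by
    have := (P_mod_two (j + 1)).1
    rw [show 2 * (j + 1) = 2 * j + 2 by ring, hQ] at this
    omega
  have hQlow : 2 ^ t ≤ Q := by
    have h1 := (P_ge (2 * j + 1)).1
    rw [show 2 * j + 1 + 1 = 2 * j + 2 by ring, hQ, ← hj] at h1
    exact_mod_cast h1
  have hQup : 2 ^ t * Q ≤ 5 ^ t := by
    have h1 := P_le' (2 * j + 1)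
    rw [show 2 * j + 1 + 1 = 2 * j + 2 by ring, hQ, ← hj] at h1
    exact_mod_cast h1
  have htt : t < 2 ^ t := Nat.lt_two_pow_self
  have hQn : Q ≤ 2 * Q ^ 2 := by nlinarith
  have hlog2' : Real.log 2 < 0.6931471808 := Real.log_two_lt_d9
  have hn3 : 3 ≤ 2 * Q ^ 2 := by omega
  refine ⟨2 * Q ^ 2, A, by omega, by omega, by omega, ?_, ?_, ?_, ?_, ?_⟩
  · intro p hp hpn
    rcases (Nat.Prime.dvd_mul hp).mp hpn with h2 | h2
    · have : p = 2 := (Nat.prime_dvd_prime_iff_eq hp Nat.prime_two).mp h2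
      subst this
      obtain ⟨w, hw⟩ := Nat.dvd_of_mod_eq_zero hQeven
      exact ⟨2 * w ^ 2, by rw [hw]; ring⟩
    · have := hp.dvd_of_dvd_pow h2
      exact Dvd.dvd.mul_left (pow_dvd_pow_of_dvd this 2) 2
  · intro p hp hpn
    rw [← hn] at hpn ⊢
    exact pow_dvd_pow_of_dvd (hp.dvd_of_dvd_pow hpn) 2
  · have h1 := cassini j
    rw [hh] at h1
    have h2 : (A : ℤ) ^ 2 ∣ (h : ℤ) ^ 2 + 1 := by
      rw [h1, ← hj]
      exact Dvd.dvd.mul_left hsq _
    have h3 : A ^ 2 ∣ h ^ 2 + 1 := by exact_mod_cast h2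
    rw [hn] at h3
    exact h3
  · apply Real.log_pos
    have : 1 < 2 * Q ^ 2 := by omega
    exact_mod_cast this
  · have hQ0 : (0 : ℝ) < Q := by
      have : 0 < Q := by omega
      exact_mod_cast this
    have h1 : (Q : ℝ) ≤ (5 / 2) ^ t := by
      have h2 : (2 : ℝ) ^ t * Q ≤ 5 ^ t := by exact_mod_cast hQup
      rw [div_pow, le_div_iff₀ (by positivity)]
      linarith
    have h3 : Real.log ((2 * Q ^ 2 : ℕ) : ℝ) = Real.log 2 + 2 * Real.log Q := by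
      push_cast
      rw [Real.log_mul (by norm_num) (by positivity), Real.log_pow]
      norm_num
    have h4 : Real.log Q ≤ t * Real.log (5 / 2) := by
      rw [← Real.log_pow]
      exact Real.log_le_log hQ0 h1
    have h5 : Real.log (5 / 2) ≤ Real.log 2 + 1 / 4 := by
      have h6 : Real.log (5 / 2) = Real.log 2 + Real.log (5 / 4) := by
        rw [← Real.log_mul (by norm_num) (by norm_num)]
        norm_num
      have h7 : Real.log (5 / 4) ≤ 5 / 4 - 1 := Real.log_le_sub_one_of_pos (by norm_num)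
      rw [h6]
      linarith
    have htA : (t : ℝ) = 3 * A := by rw [ht]; push_cast; ring
    have hA3 : (3 : ℝ) ≤ A := by
      have : 3 ≤ A := by omega
      exact_mod_cast this
    rw [h3]
    rw [htA] at h4
    nlinarith

end Pool.Agent.J6H52.Pw
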