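import Pool.Agent.J6H52.Pw.Conic

/-!
# Sums of two powerful numbers

The number of representations of `n` as a sum of two powerful numbers is at most
`12 d(n) ^ 2 n ^ (2/5)`.
-/

set_option autoImplicit false

open Finset

namespace Pool.Agent.J6H52.Pw

/-- A powerful number is `q ^ 3 x ^ 2`. -/
theorem powerful_form (a : ℕ) (ha : 0 < a) (hp : ∀ p : ℕ, p.Prime → p ∣ a → p ^ 2 ∣ a) :
    ∃ q x : ℕ, 0 < q ∧ 0 < x ∧ a = q ^ 3 * x ^ 2 := by
  obtain ⟨q, c, hc, hq⟩ := Nat.sq_mul_squarefree a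
  have hc0 : c ≠ 0 := by
    rintro rfl
    simp at hc
    omega
  have hq0 : q ≠ 0 := by
    rintro rfl
    simp at hc
    omega
  have h1 : ∀ p : ℕ, p.Prime → p ∣ q → p ∣ c := by
    intro p hpp hpq
    by_contra hpc
    have h2 : p ^ 2 ∣ c ^ 2 * q := by
      rw [hc]
      exact hp p hpp (by rw [← hc]; exact Dvd.dvd.mul_left hpq _)
    have h3 : Nat.Coprime (p ^ 2) (c ^ 2) := by
      apply Nat.Coprime.pow
      exact (Nat.Prime.coprime_iff_not_dvd hpp).mpr hpc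
    have h4 : p ^ 2 ∣ q := h3.dvd_of_dvd_mul_left h2
    have h5 : p * p ∣ q := by rwa [← sq]
    have h6 := hq p h5
    rw [Nat.isUnit_iff] at h6
    exact hpp.one_lt.ne' h6
  have h2 : q ∣ c := by
    rw [← Nat.prod_primeFactors_of_squarefree hq]
    apply Finset.prod_primes_dvd
    · intro p hp'
      exact (Nat.prime_of_mem_primeFactors hp').prime
    · intro p hp'
      exact h1 p (Nat.prime_of_mem_primeFactors hp') (Nat.dvd_of_mem_primeFactors hp')
  obtain ⟨x, rfl⟩ := h2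
  refine ⟨q, x, Nat.pos_of_ne_zero hq0, Nat.pos_of_ne_zero (by rintro rfl; simp at hc0), ?_⟩
  rw [← hc]
  ring

/-- one step of the telescoping sum -/
theorem tele_step (u v : ℝ) (hu : 0 < u) (huv : u < v) (h : v ^ 2 = u ^ 2 + 1) :
    1 / v ^ 3 ≤ 2 * (1 / u - 1 / v) := by
  have hv : 0 < v := hu.trans huv
  have h1 : (v - u) * (v + u) = 1 := by nlinarith
  have h2 : v - u = 1 / (v + u) := by
    field_simp
    linarith
  have h3 : 1 / u - 1 / v = 1 / ((v + u) * (u * v)) := by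
    rw [div_sub_div _ _ hu.ne' hv.ne', one_mul, mul_one, h2, div_div]
  rw [h3, ← mul_div_assoc, mul_one, div_le_div_iff₀ (by positivity) (by positivity)]
  nlinarith [mul_pos hu hv, mul_pos (mul_pos hu hv) hv, mul_pos (mul_pos hu hv) (sub_pos.mpr huv),
    mul_pos hv (sub_pos.mpr huv), mul_pos (mul_pos hv hv) (sub_pos.mpr huv)]

theorem tele (Y : ℕ) (hY : 1 ≤ Y) (N : ℕ) (hN : Y ≤ N) :
    ∑ q ∈ Ioc Y N, 1 / (Real.sqrt q) ^ 3 ≤ 2 * (1 / Real.sqrt Y - 1 / Real.sqrt N) := by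
  induction N, hN using Nat.le_induction with
  | base => simp
  | succ n hn ih =>
    rw [Finset.sum_Ioc_succ_top (by omega)]
    have h1 : (0 : ℝ) < n := by
      have : 0 < n := by omega
      exact_mod_cast this
    have h2 := tele_step (Real.sqrt n) (Real.sqrt ((n + 1 : ℕ) : ℝ)) (Real.sqrt_pos.mpr h1)
      (Real.sqrt_lt_sqrt h1.le (by push_cast; linarith)) (by
        rw [Real.sq_sqrt (by positivity), Real.sq_sqrt h1.le]
        push_cast
        ring)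
    linarith

/-- the number of pairs with large cube part -/
theorem tail_card (Y n : ℕ) (hY : 1 ≤ Y) (hn : 1 ≤ n) (T : Finset (ℕ × ℕ))
    (hT : ∀ t ∈ T, Y < t.1 ∧ 0 < t.2 ∧ t.1 ^ 3 * t.2 ^ 2 ≤ n) :
    (T.card : ℝ) ≤ 2 * (Real.sqrt n / Real.sqrt Y) := by
  classical
  have hle : ∀ t ∈ T, t.1 ∈ Ioc Y (max Y n) := by
    intro t ht
    obtain ⟨h1, h2, h3⟩ := hT t ht
    rw [Finset.mem_Ioc]
    refine ⟨h1, le_trans ?_ (le_max_right _ _)⟩
    calc t.1 = t.1 ^ 1 * 1 := by ring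
      _ ≤ t.1 ^ 3 * t.2 ^ 2 := Nat.mul_le_mul (Nat.pow_le_pow_right (by omega) (by norm_num))
          (Nat.one_le_pow _ _ h2)
      _ ≤ n := h3
  have h1 : T.card = ∑ q ∈ Ioc Y (max Y n), (T.filter (fun t => t.1 = q)).card := by
    apply Finset.card_eq_sum_card_fiberwise
    intro t ht
    exact hle t ht
  rw [h1]
  push_cast
  have hfib : ∀ q ∈ Ioc Y (max Y n), ((T.filter (fun t => t.1 = q)).card : ℝ) ≤
      Real.sqrt n * (1 / Real.sqrt q ^ 3) := by
    intro q hq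
    rw [Finset.mem_Ioc] at hq
    have hq0 : (0 : ℝ) < q := by
      have : 0 < q := by omega
      exact_mod_cast this
    have h2 : (T.filter (fun t => t.1 = q)).card ≤ (Ioc 0 (Nat.floor (Real.sqrt n * (1 / Real.sqrt q ^ 3)))).card := by
      apply Finset.card_le_card_of_injOn (fun t => t.2)
      · intro t ht
        rw [Finset.mem_coe, Finset.mem_filter] at ht
        obtain ⟨ht, rfl⟩ := ht
        obtain ⟨h1, h2, h3⟩ := hT t ht
        rw [Finset.mem_coe, Finset.mem_Ioc]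
        refine ⟨h2, ?_⟩
        apply Nat.le_floor
        rw [mul_one_div, le_div_iff₀ (by positivity)]
        apply Real.le_sqrt_of_sq_le
        have h4 : ((t.1 : ℝ)) ^ 3 * (t.2 : ℝ) ^ 2 ≤ n := by exact_mod_cast h3
        calc ((t.2 : ℝ) * Real.sqrt t.1 ^ 3) ^ 2 = (Real.sqrt t.1 ^ 2) ^ 3 * (t.2 : ℝ) ^ 2 := by ring
          _ = (t.1 : ℝ) ^ 3 * (t.2 : ℝ) ^ 2 := by rw [Real.sq_sqrt hq0.le]
          _ ≤ n := h4
      · intro t ht t' ht' h
        rw [Finset.mem_coe, Finset.mem_filter] at ht ht'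
        exact Prod.ext (ht.2.trans ht'.2.symm) h
    rw [Nat.card_Ioc, Nat.sub_zero] at h2
    calc ((T.filter (fun t => t.1 = q)).card : ℝ) ≤ (Nat.floor (Real.sqrt n * (1 / Real.sqrt q ^ 3)) : ℝ) := by
          exact_mod_cast h2
      _ ≤ _ := Nat.floor_le (by positivity)
  calc _ ≤ ∑ q ∈ Ioc Y (max Y n), Real.sqrt n * (1 / Real.sqrt q ^ 3) := Finset.sum_le_sum hfib
    _ = Real.sqrt n * ∑ q ∈ Ioc Y (max Y n), 1 / Real.sqrt q ^ 3 := by rw [Finset.mul_sum]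
    _ ≤ Real.sqrt n * (2 * (1 / Real.sqrt Y - 1 / Real.sqrt (max Y n : ℕ))) := by
        apply mul_le_mul_of_nonneg_left _ (Real.sqrt_nonneg _)
        exact tele Y hY (max Y n) (le_max_left _ _)
    _ ≤ Real.sqrt n * (2 * (1 / Real.sqrt Y)) := by
        apply mul_le_mul_of_nonneg_left _ (Real.sqrt_nonneg _)
        have : 0 ≤ 1 / Real.sqrt (max Y n : ℕ) := by positivity
        linarith
    _ = _ := by ring

/-- Representations with small cube parts. -/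
theorem small_card (Z Y n : ℕ) (hn : 1 ≤ n) (R : Finset ℕ) (f h : ℕ → ℕ × ℕ)
    (hR : ∀ a ∈ R, a < n)
    (hf : ∀ a ∈ R, 0 < (f a).1 ∧ 0 < (f a).2 ∧ a = (f a).1 ^ 3 * (f a).2 ^ 2 ∧ (f a).1 ≤ Z)
    (hh : ∀ a ∈ R, 0 < (h a).1 ∧ 0 < (h a).2 ∧ n - a = (h a).1 ^ 3 * (h a).2 ^ 2 ∧ (h a).1 ≤ Y) :
    R.card ≤ Z * Y * (2 * n.divisors.card ^ 2) := by
  classical
  have e1 : R.card = ∑ c ∈ (Ioc 0 Z) ×ˢ (Ioc 0 Y),
      (R.filter (fun a => ((f a).1, (h a).1) = c)).card := by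
    apply Finset.card_eq_sum_card_fiberwise
    intro a ha
    rw [Finset.mem_coe, Finset.mem_product, Finset.mem_Ioc, Finset.mem_Ioc]
    exact ⟨⟨(hf a ha).1, (hf a ha).2.2.2⟩, ⟨(hh a ha).1, (hh a ha).2.2.2⟩⟩
  rw [e1]
  calc _ ≤ ∑ c ∈ (Ioc 0 Z) ×ˢ (Ioc 0 Y), 2 * n.divisors.card ^ 2 := by
        apply Finset.sum_le_sum
        intro c hc
        rw [Finset.mem_product, Finset.mem_Ioc, Finset.mem_Ioc] at hc
        set Q := R.filter (fun a => ((f a).1, (h a).1) = c) with hQ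
        have hQm : ∀ a ∈ Q, a ∈ R ∧ (f a).1 = c.1 ∧ (h a).1 = c.2 := by
          intro a ha
          rw [hQ, Finset.mem_filter] at ha
          have hc' : ((f a).1, (h a).1) = c := ha.2
          exact ⟨ha.1, by rw [← hc'], by rw [← hc']⟩
        have e2 : Q.card = (Q.image (fun a => ((f a).2, (h a).2))).card := by
          rw [Finset.card_image_of_injOn]
          intro a ha b hb hab
          have ha' := hQm a ha
          have hb' := hQm b hb
          have hab' : (f a).2 = (f b).2 := congrArg Prod.fst hab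
          rw [(hf a ha'.1).2.2.1, (hf b hb'.1).2.2.1, ha'.2.1, hb'.2.1, hab']
        rw [e2]
        apply card_conic (c.1 ^ 3) (c.2 ^ 3) n (pow_pos hc.1.1 3) (pow_pos hc.2.1 3) (by omega)
        intro s hs
        rw [Finset.mem_image] at hs
        obtain ⟨a, ha, rfl⟩ := hs
        have ha' := hQm a ha
        refine ⟨(hf a ha'.1).2.1, (hh a ha'.1).2.1, ?_⟩
        have e3 := (hf a ha'.1).2.2.1
        have e4 := (hh a ha'.1).2.2.1
        rw [ha'.2.1] at e3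
        rw [ha'.2.2] at e4
        show c.1 ^ 3 * (f a).2 ^ 2 + c.2 ^ 3 * (h a).2 ^ 2 = n
        rw [← e3, ← e4]
        have := hR a ha'.1
        omega
    _ = _ := by
        rw [Finset.sum_const, smul_eq_mul, Finset.card_product, Nat.card_Ioc, Nat.card_Ioc,
          Nat.sub_zero, Nat.sub_zero]

/-- Representations with a large first cube part. -/
theorem large_left (Y n : ℕ) (hY : 1 ≤ Y) (hn : 1 ≤ n) (R : Finset ℕ) (f : ℕ → ℕ × ℕ)
    (hR : ∀ a ∈ R, a < n)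
    (hf : ∀ a ∈ R, 0 < (f a).2 ∧ a = (f a).1 ^ 3 * (f a).2 ^ 2 ∧ Y < (f a).1) :
    (R.card : ℝ) ≤ 2 * (Real.sqrt n / Real.sqrt Y) := by
  classical
  have e2 : R.card = (R.image f).card := by
    rw [Finset.card_image_of_injOn]
    intro a ha b hb hab
    rw [(hf a ha).2.1, (hf b hb).2.1]
    have hab' : f a = f b := hab
    rw [hab']
  rw [e2]
  apply tail_card Y n hY hn
  intro t ht
  rw [Finset.mem_image] at ht
  obtain ⟨a, ha, rfl⟩ := ht
  refine ⟨(hf a ha).2.2, (hf a ha).1, ?_⟩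
  rw [← (hf a ha).2.1]
  exact (hR a ha).le

/-- Representations with a large second cube part. -/
theorem large_right (Y n : ℕ) (hY : 1 ≤ Y) (hn : 1 ≤ n) (R : Finset ℕ) (h : ℕ → ℕ × ℕ)
    (hR : ∀ a ∈ R, a < n)
    (hh : ∀ a ∈ R, 0 < (h a).2 ∧ n - a = (h a).1 ^ 3 * (h a).2 ^ 2 ∧ Y < (h a).1) :
    (R.card : ℝ) ≤ 2 * (Real.sqrt n / Real.sqrt Y) := by
  classical
  have e2 : R.card = (R.image h).card := by
    rw [Finset.card_image_of_injOn]
    intro a ha b hb hab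
    have e3 := (hh a ha).2.1
    have e4 := (hh b hb).2.1
    have hab' : h a = h b := hab
    rw [hab'] at e3
    have e5 : n - a = n - b := e3.trans e4.symm
    have e6 := hR a ha
    have e7 := hR b hb
    omega
  rw [e2]
  apply tail_card Y n hY hn
  intro t ht
  rw [Finset.mem_image] at ht
  obtain ⟨a, ha, rfl⟩ := ht
  refine ⟨(hh a ha).2.2, (hh a ha).1, ?_⟩
  rw [← (hh a ha).2.1]
  omega

/-- The choice of the cube part and of the square part of a powerful number. -/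
theorem exists_form : ∃ f : ℕ → ℕ × ℕ, ∀ a : ℕ, 0 < a →
    (∀ p : ℕ, p.Prime → p ∣ a → p ^ 2 ∣ a) →
      0 < (f a).1 ∧ 0 < (f a).2 ∧ a = (f a).1 ^ 3 * (f a).2 ^ 2 := by
  have hf : ∀ a : ℕ, ∃ t : ℕ × ℕ, 0 < a → (∀ p : ℕ, p.Prime → p ∣ a → p ^ 2 ∣ a) →
      0 < t.1 ∧ 0 < t.2 ∧ a = t.1 ^ 3 * t.2 ^ 2 := by
    intro a
    by_cases h : 0 < a ∧ (∀ p : ℕ, p.Prime → p ∣ a → p ^ 2 ∣ a)
    · obtain ⟨q, x, h1, h2, h3⟩ := powerful_form a h.1 h.2
      exact ⟨(q, x), fun _ _ => ⟨h1, h2, h3⟩⟩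
    · exact ⟨(0, 0), fun h1 h2 => absurd ⟨h1, h2⟩ h⟩
  choose f hf using hf
  exact ⟨f, hf⟩

/-- The bound with a free parameter. -/
theorem card_param (Y n : ℕ) (hY : 1 ≤ Y) (hn : 1 ≤ n) (R : Finset ℕ)
    (hR : ∀ a ∈ R, a < n ∧ 0 < a ∧ (∀ p : ℕ, p.Prime → p ∣ a → p ^ 2 ∣ a) ∧
      (∀ p : ℕ, p.Prime → p ∣ n - a → p ^ 2 ∣ n - a)) :
    (R.card : ℝ) ≤ 2 * (Y : ℝ) ^ 2 * (n.divisors.card : ℝ) ^ 2 + 4 * (Real.sqrt n / Real.sqrt Y) := by
  classical
  obtain ⟨f, hf⟩ := exists_form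
  have hfa : ∀ a ∈ R, 0 < (f a).1 ∧ 0 < (f a).2 ∧ a = (f a).1 ^ 3 * (f a).2 ^ 2 :=
    fun a ha => hf a (hR a ha).2.1 (hR a ha).2.2.1
  have hfb : ∀ a ∈ R, 0 < (f (n - a)).1 ∧ 0 < (f (n - a)).2 ∧
      n - a = (f (n - a)).1 ^ 3 * (f (n - a)).2 ^ 2 :=
    fun a ha => hf (n - a) (by have := (hR a ha).1; omega) (hR a ha).2.2.2
  set R1 := R.filter (fun a => (f a).1 ≤ Y ∧ (f (n - a)).1 ≤ Y) with hR1
  set R2 := R.filter (fun a => Y < (f a).1) with hR2
  set R3 := R.filter (fun a => Y < (f (n - a)).1) with hR3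
  have hsub : R ⊆ R1 ∪ (R2 ∪ R3) := by
    intro a ha
    simp only [hR1, hR2, hR3, Finset.mem_union, Finset.mem_filter, ha, true_and]
    omega
  have h0 : R.card ≤ R1.card + (R2.card + R3.card) :=
    (Finset.card_le_card hsub).trans ((Finset.card_union_le _ _).trans
      (Nat.add_le_add_left (Finset.card_union_le _ _) _))
  have h1 : R1.card ≤ Y * Y * (2 * n.divisors.card ^ 2) := by
    apply small_card Y Y n hn R1 f (fun a => f (n - a))
    · intro a ha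
      exact (hR a (Finset.mem_of_mem_filter a ha)).1
    · intro a ha
      rw [hR1, Finset.mem_filter] at ha
      have := hfa a ha.1
      exact ⟨this.1, this.2.1, this.2.2, ha.2.1⟩
    · intro a ha
      rw [hR1, Finset.mem_filter] at ha
      have := hfb a ha.1
      exact ⟨this.1, this.2.1, this.2.2, ha.2.2⟩
  have h2 : (R2.card : ℝ) ≤ 2 * (Real.sqrt n / Real.sqrt Y) := by
    apply large_left Y n hY hn R2 f
    · intro a ha
      exact (hR a (Finset.mem_of_mem_filter a ha)).1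
    · intro a ha
      rw [hR2, Finset.mem_filter] at ha
      have := hfa a ha.1
      exact ⟨this.2.1, this.2.2, ha.2⟩
  have h3 : (R3.card : ℝ) ≤ 2 * (Real.sqrt n / Real.sqrt Y) := by
    apply large_right Y n hY hn R3 (fun a => f (n - a))
    · intro a ha
      exact (hR a (Finset.mem_of_mem_filter a ha)).1
    · intro a ha
      rw [hR3, Finset.mem_filter] at ha
      have := hfb a ha.1
      exact ⟨this.2.1, this.2.2, ha.2⟩
  have h0' : (R.card : ℝ) ≤ R1.card + (R2.card + R3.card) := by exact_mod_cast h0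
  have h1' : (R1.card : ℝ) ≤ (Y : ℝ) * Y * (2 * (n.divisors.card : ℝ) ^ 2) := by exact_mod_cast h1
  nlinarith

/-- The bound with a free parameter when the first summand is a square. -/
theorem card_param_sq (Y n : ℕ) (hY : 1 ≤ Y) (hn : 1 ≤ n) (R : Finset ℕ)
    (hR : ∀ a ∈ R, a < n ∧ 0 < a ∧ (∃ x : ℕ, a = x ^ 2) ∧
      (∀ p : ℕ, p.Prime → p ∣ n - a → p ^ 2 ∣ n - a)) :
    (R.card : ℝ) ≤ 2 * (Y : ℝ) * (n.divisors.card : ℝ) ^ 2 + 2 * (Real.sqrt n / Real.sqrt Y) := by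
  classical
  obtain ⟨f, hf⟩ := exists_form
  have hfb : ∀ a ∈ R, 0 < (f (n - a)).1 ∧ 0 < (f (n - a)).2 ∧
      n - a = (f (n - a)).1 ^ 3 * (f (n - a)).2 ^ 2 :=
    fun a ha => hf (n - a) (by have := (hR a ha).1; omega) (hR a ha).2.2.2
  set R1 := R.filter (fun a => (f (n - a)).1 ≤ Y) with hR1
  set R3 := R.filter (fun a => Y < (f (n - a)).1) with hR3
  have hsub : R ⊆ R1 ∪ R3 := by
    intro a ha
    simp only [hR1, hR3, Finset.mem_union, Finset.mem_filter, ha, true_and]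
    omega
  have h0 : R.card ≤ R1.card + R3.card :=
    (Finset.card_le_card hsub).trans (Finset.card_union_le _ _)
  have h1 : R1.card ≤ 1 * Y * (2 * n.divisors.card ^ 2) := by
    apply small_card 1 Y n hn R1 (fun a => (1, Nat.sqrt a)) (fun a => f (n - a))
    · intro a ha
      exact (hR a (Finset.mem_of_mem_filter a ha)).1
    · intro a ha
      rw [hR1, Finset.mem_filter] at ha
      obtain ⟨_, h2, ⟨x, rfl⟩, _⟩ := hR a ha.1
      have hx : 0 < x := by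
        rcases Nat.eq_zero_or_pos x with h | h
        · subst h; simp at h2
        · exact h
      refine ⟨one_pos, ?_, ?_, le_refl 1⟩
      · show 0 < Nat.sqrt (x ^ 2)
        rw [Nat.sqrt_eq']
        exact hx
      · show x ^ 2 = 1 ^ 3 * (Nat.sqrt (x ^ 2)) ^ 2
        rw [Nat.sqrt_eq']
        ring
    · intro a ha
      rw [hR1, Finset.mem_filter] at ha
      have := hfb a ha.1
      exact ⟨this.1, this.2.1, this.2.2, ha.2⟩
  have h3 : (R3.card : ℝ) ≤ 2 * (Real.sqrt n / Real.sqrt Y) := by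
    apply large_right Y n hY hn R3 (fun a => f (n - a))
    · intro a ha
      exact (hR a (Finset.mem_of_mem_filter a ha)).1
    · intro a ha
      rw [hR3, Finset.mem_filter] at ha
      have := hfb a ha.1
      exact ⟨this.2.1, this.2.2, ha.2⟩
  have h0' : (R.card : ℝ) ≤ R1.card + R3.card := by exact_mod_cast h0
  have h1' : (R1.card : ℝ) ≤ 1 * (Y : ℝ) * (2 * (n.divisors.card : ℝ) ^ 2) := by exact_mod_cast h1
  nlinarith

/-- The bound with the optimal parameter when the first summand is a square. -/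
theorem card_one_third (n : ℕ) (hn : 1 ≤ n) (R : Finset ℕ)
    (hR : ∀ a ∈ R, a < n ∧ 0 < a ∧ (∃ x : ℕ, a = x ^ 2) ∧
      (∀ p : ℕ, p.Prime → p ∣ n - a → p ^ 2 ∣ n - a)) :
    (R.card : ℝ) ≤ 6 * (n.divisors.card : ℝ) ^ 2 * (n : ℝ) ^ (1 / 3 : ℝ) := by
  have hn1 : (1 : ℝ) ≤ n := by exact_mod_cast hn
  have hn0 : (0 : ℝ) < n := by linarith
  set z : ℝ := (n : ℝ) ^ (1 / 3 : ℝ) with hz
  have hz1 : 1 ≤ z := Real.one_le_rpow hn1 (by norm_num)
  have hz3 : z ^ 3 = n := by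
    rw [hz, ← Real.rpow_natCast, ← Real.rpow_mul hn0.le]
    norm_num
  set Y := Nat.ceil z with hY
  have hY1 : z ≤ Y := Nat.le_ceil z
  have hY2 : (Y : ℝ) ≤ 2 * z := by
    have := Nat.ceil_lt_add_one (a := z) (by linarith)
    linarith
  have hY0 : 1 ≤ Y := by
    have : (1 : ℝ) ≤ Y := hz1.trans hY1
    exact_mod_cast this
  have hYpos : (0 : ℝ) < Y := by linarith
  have h1 := card_param_sq Y n hY0 hn R hR
  have hd : (1 : ℝ) ≤ (n.divisors.card : ℝ) ^ 2 := by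
    have : 1 ≤ n.divisors.card := Finset.card_pos.mpr ⟨1, Nat.one_mem_divisors.mpr (by omega)⟩
    exact_mod_cast Nat.one_le_pow _ _ this
  have h2 : Real.sqrt n / Real.sqrt Y ≤ z := by
    rw [← Real.sqrt_div hn0.le]
    apply Real.sqrt_le_iff.mpr
    refine ⟨by positivity, ?_⟩
    rw [div_le_iff₀ hYpos, ← hz3]
    calc z ^ 3 = z ^ 2 * z := by ring
      _ ≤ z ^ 2 * Y := by gcongr
  have h4 : 2 * (Y : ℝ) * (n.divisors.card : ℝ) ^ 2 ≤ 2 * (2 * z) * (n.divisors.card : ℝ) ^ 2 := by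
    gcongr
  have h5 : z ≤ (n.divisors.card : ℝ) ^ 2 * z := by nlinarith
  nlinarith

/-- The bound with the optimal parameter. -/
theorem card_two_fifths (n : ℕ) (hn : 1 ≤ n) (R : Finset ℕ)
    (hR : ∀ a ∈ R, a < n ∧ 0 < a ∧ (∀ p : ℕ, p.Prime → p ∣ a → p ^ 2 ∣ a) ∧
      (∀ p : ℕ, p.Prime → p ∣ n - a → p ^ 2 ∣ n - a)) :
    (R.card : ℝ) ≤ 12 * (n.divisors.card : ℝ) ^ 2 * (n : ℝ) ^ (2 / 5 : ℝ) := by
  have hn1 : (1 : ℝ) ≤ n := by exact_mod_cast hn
  have hn0 : (0 : ℝ) < n := by linarith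
  set z : ℝ := (n : ℝ) ^ (1 / 5 : ℝ) with hz
  have hz1 : 1 ≤ z := Real.one_le_rpow hn1 (by norm_num)
  have hz5 : z ^ 5 = n := by
    rw [hz, ← Real.rpow_natCast, ← Real.rpow_mul hn0.le]
    norm_num
  have hz2 : z ^ 2 = (n : ℝ) ^ (2 / 5 : ℝ) := by
    rw [hz, ← Real.rpow_natCast, ← Real.rpow_mul hn0.le]
    norm_num
  set Y := Nat.ceil z with hY
  have hY1 : z ≤ Y := Nat.le_ceil z
  have hY2 : (Y : ℝ) ≤ 2 * z := by
    have := Nat.ceil_lt_add_one (a := z) (by linarith)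
    linarith
  have hY0 : 1 ≤ Y := by
    have : (1 : ℝ) ≤ Y := hz1.trans hY1
    exact_mod_cast this
  have hYpos : (0 : ℝ) < Y := by linarith
  have h1 := card_param Y n hY0 hn R hR
  have hd : (1 : ℝ) ≤ (n.divisors.card : ℝ) ^ 2 := by
    have : 1 ≤ n.divisors.card := Finset.card_pos.mpr ⟨1, Nat.one_mem_divisors.mpr (by omega)⟩
    exact_mod_cast Nat.one_le_pow _ _ this
  have h2 : Real.sqrt n / Real.sqrt Y ≤ z ^ 2 := by
    rw [← Real.sqrt_div hn0.le]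
    apply Real.sqrt_le_iff.mpr
    refine ⟨by positivity, ?_⟩
    rw [div_le_iff₀ hYpos, ← hz5]
    calc z ^ 5 = (z ^ 2) ^ 2 * z := by ring
      _ ≤ (z ^ 2) ^ 2 * Y := by gcongr
  have h3 : (Y : ℝ) ^ 2 ≤ 4 * z ^ 2 := by nlinarith
  rw [← hz2]
  have h4 : 2 * (Y : ℝ) ^ 2 * (n.divisors.card : ℝ) ^ 2 ≤ 2 * (4 * z ^ 2) * (n.divisors.card : ℝ) ^ 2 := by
    gcongr
  have h5 : z ^ 2 ≤ (n.divisors.card : ℝ) ^ 2 * z ^ 2 := by
    have : 0 ≤ z ^ 2 := by positivity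
    nlinarith
  nlinarith

end Pool.Agent.J6H52.Pw
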