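import Mathlib

/-!
# Pell numbers

`(1 + √2) ^ n = H n + P n √2`. We prove `P a ^ 2 ∣ P (a * P a)`, the identities
`H (2k) ^ 2 = 2 P (2k) ^ 2 + 1`, `H (2k) ^ 2 + 1 = 2 P (2k+1) P (2k-1)`, and size estimates.
-/

set_option autoImplicit false

namespace Pool.Agent.J6H52.Pw

/-- the pair `(H n, P n)` -/
def hp : ℕ → ℤ × ℤ
  | 0 => (1, 0)
  | n + 1 => ((hp n).1 + 2 * (hp n).2, (hp n).1 + (hp n).2)

def H (n : ℕ) : ℤ := (hp n).1
def P (n : ℕ) : ℤ := (hp n).2

theorem H_zero : H 0 = 1 := rfl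
theorem P_zero : P 0 = 0 := rfl
theorem H_succ (n : ℕ) : H (n + 1) = H n + 2 * P n := rfl
theorem P_succ (n : ℕ) : P (n + 1) = H n + P n := rfl

theorem add_formula (m n : ℕ) :
    H (m + n) = H m * H n + 2 * P m * P n ∧ P (m + n) = P m * H n + H m * P n := by
  induction n with
  | zero => simp [H_zero, P_zero]
  | succ n ih =>
    obtain ⟨h1, h2⟩ := ih
    rw [← add_assoc, H_succ, P_succ, H_succ, P_succ, h1, h2]
    constructor <;> ring

theorem norm_eq (n : ℕ) : H n ^ 2 - 2 * P n ^ 2 = (-1) ^ n := by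
  induction n with
  | zero => simp [H_zero, P_zero]
  | succ n ih =>
    rw [H_succ, P_succ, pow_succ (-1 : ℤ) n, ← ih]
    ring

theorem norm_even (k : ℕ) : H (2 * k) ^ 2 = 2 * P (2 * k) ^ 2 + 1 := by
  have := norm_eq (2 * k)
  rw [pow_mul] at this
  norm_num at this
  linarith

theorem pos (n : ℕ) : 0 < H n ∧ 0 ≤ P n := by
  induction n with
  | zero => simp [H_zero, P_zero]
  | succ n ih =>
    rw [H_succ, P_succ]
    constructor <;> linarith [ih.1, ih.2]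

theorem P_pos (n : ℕ) : 0 < P (n + 1) := by
  rw [P_succ]
  linarith [(pos n).1, (pos n).2]

/-- `P (m + 2) * P m = P (m + 1) ^ 2 - (-1) ^ (m + 1) ...`, for `m = 2 k + 1`. -/
theorem cassini (k : ℕ) : H (2 * k + 2) ^ 2 + 1 = 2 * P (2 * k + 3) * P (2 * k + 1) := by
  have h1 := norm_eq (2 * k + 1)
  have h2 : (-1 : ℤ) ^ (2 * k + 1) = -1 := by
    rw [pow_succ, pow_mul]
    norm_num
  rw [h2] at h1
  rw [show 2 * k + 3 = (2 * k + 1) + 1 + 1 by ring, show 2 * k + 2 = (2 * k + 1) + 1 by ring]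
  rw [P_succ (2 * k + 1 + 1), H_succ (2 * k + 1), P_succ (2 * k + 1)]
  nlinarith

theorem pow_mod (a : ℕ) (j : ℕ) : P a ^ 2 ∣ H (a * j) - H a ^ j ∧
    P a ^ 2 ∣ P (a * (j + 1)) - (j + 1) * H a ^ j * P a ∧ P a ∣ P (a * j) := by
  induction j with
  | zero => simp [H_zero, P_zero]
  | succ j ih =>
    obtain ⟨⟨u, hu⟩, ⟨v, hv⟩, ⟨w, hw⟩⟩ := ih
    have e1 := add_formula (a * j) a
    have e2 := add_formula (a * (j + 1)) a
    rw [← Nat.mul_succ, ← Nat.add_one] at e1 e2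
    have hH : H (a * (j + 1)) = H a ^ (j + 1) + P a ^ 2 * (u * H a + 2 * w) := by
      rw [e1.1, hw, show H (a * j) = H a ^ j + P a ^ 2 * u by linarith]
      ring
    refine ⟨⟨u * H a + 2 * w, by rw [hH]; ring⟩, ?_, ?_⟩
    · refine ⟨v * H a + (u * H a + 2 * w) * P a, ?_⟩
      rw [e2.2, hH, show P (a * (j + 1)) = (j + 1) * H a ^ j * P a + P a ^ 2 * v by linarith]
      push_cast
      ring
    · rw [e1.2, hw]
      exact ⟨w * H a + H (a * j), by ring⟩

/-- `P a ^ 2 ∣ P (a * P a)` -/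
theorem sq_dvd (a : ℕ) (ha : 0 < a) : P a ^ 2 ∣ P (a * (P a).toNat) := by
  have h0 : 0 < P a := by
    obtain ⟨b, rfl⟩ := Nat.exists_eq_add_of_lt ha
    have := P_pos (0 + b)
    simpa using this
  obtain ⟨j, hj⟩ : ∃ j : ℕ, (P a).toNat = j + 1 := ⟨(P a).toNat - 1, by omega⟩
  have h1 := (pow_mod a j).2.1
  have h2 : ((j : ℤ) + 1) = P a := by
    have : ((P a).toNat : ℤ) = P a := Int.toNat_of_nonneg h0.le
    rw [hj] at this
    push_cast at this
    exact this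
  rw [h2] at h1
  rw [hj]
  have h3 : P a ^ 2 ∣ P a * H a ^ j * P a := ⟨H a ^ j, by ring⟩
  have := dvd_add h1 h3
  simpa using this

theorem P_mod_two (k : ℕ) : P (2 * k) % 2 = 0 ∧ P (2 * k + 1) % 2 = 1 ∧ H (2 * k) % 2 = 1 ∧
    H (2 * k + 1) % 2 = 1 := by
  induction k with
  | zero => simp [H_zero, P_zero, H_succ, P_succ]
  | succ k ih =>
    have e1 : P (2 * (k + 1)) = H (2 * k + 1) + P (2 * k + 1) := P_succ (2 * k + 1)
    have e2 : H (2 * (k + 1)) = H (2 * k + 1) + 2 * P (2 * k + 1) := H_succ (2 * k + 1)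
    have e3 : P (2 * (k + 1) + 1) = H (2 * (k + 1)) + P (2 * (k + 1)) := P_succ _
    have e4 : H (2 * (k + 1) + 1) = H (2 * (k + 1)) + 2 * P (2 * (k + 1)) := H_succ _
    omega

theorem P_ge (n : ℕ) : (2 : ℤ) ^ n ≤ P (n + 1) ∧ (1 : ℤ) ≤ H n ∧ P n ≤ H n := by
  induction n with
  | zero => simp [H_zero, P_zero, P_succ]
  | succ n ih =>
    obtain ⟨h1, h2, h3⟩ := ih
    have e1 : P (n + 1 + 1) = H (n + 1) + P (n + 1) := P_succ _
    have e2 : H (n + 1) = H n + 2 * P n := H_succ _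
    have e3 : P (n + 1) = H n + P n := P_succ _
    have h4 := (pos n).2
    refine ⟨?_, by linarith, by linarith⟩
    rw [pow_succ]
    linarith

theorem P_le (n : ℕ) : P n ≤ 3 ^ n ∧ H n ≤ 3 ^ n := by
  have key : H n ≤ 3 ^ n ∧ P n ≤ H n := by
    induction n with
    | zero => simp [H_zero, P_zero]
    | succ n ih =>
      rw [H_succ, P_succ, pow_succ]
      have h4 := (pos n).2
      constructor <;> linarith [ih.1, ih.2]
  exact ⟨key.2.trans key.1, key.1⟩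

end Pool.Agent.J6H52.Pw
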